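import Pool.Agent.AT12.Stmts3

/-!
# Squad AT12, row AVL: the number `aa` is an integer at `M`, not divisible by `ℓ` for height zero
-/

open scoped BigOperators

noncomputable section

namespace Pool.Agent.PP.T12.H17

open Pool.Agent.Helper51_AWC Pool.Agent.Helper79_WRA Pool.Agent.PP Pool.Agent.PP.KF
open Pool.Agent.PP.K9 Pool.Agent.PP.K9.H97 Pool.Agent.PP.H75 Pool.Agent.PP.T3 Pool.Agent.PP.T2
open Pool.Agent.PP.T8 Pool.Agent.PP.T12

attribute [local instance] Ideal.Quotient.field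

/-- the order of the image of `V` in `C(y)/⟨y⟩` -/
theorem card_im {G H : Type} [Group G] [Finite G] [Group H] {ℓ : ℕ} (hℓ : 0 < ℓ) {V : Subgroup G}
    (hab : ∀ a ∈ V, ∀ b ∈ V, a * b = b * a) {y : G} (hy : y ∈ V) (hc : Nat.card V = ℓ ^ 4)
    {π : Cu y →* H} (hQ : C2.Qn (ℓ ^ 2) y π) :
    Nat.card ((V.subgroupOf (Cu y)).map π) = ℓ ^ 2 := by
  have hVC : V ≤ Cu y := by
    intro v hv
    show v ∈ Subgroup.centralizer ({y} : Set G)
    rw [Subgroup.mem_centralizer_singleton_iff]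
    exact hab v hv y hy
  have hzV : Subgroup.zpowers y ≤ V := by rwa [Subgroup.zpowers_le]
  have hker : π.ker = (Subgroup.zpowers y).subgroupOf (Cu y) := by
    ext c
    rw [MonoidHom.mem_ker, hQ.ker, Subgroup.mem_subgroupOf]
  have h1 : Nat.card π.ker = ℓ ^ 2 := by
    rw [hker, Nat.card_congr (Subgroup.subgroupOfEquivOfLe (hzV.trans hVC)).toEquiv,
      Nat.card_zpowers, hQ.ord]
  have h2 : Nat.card (V.subgroupOf (Cu y)) = ℓ ^ 4 := by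
    rw [Nat.card_congr (Subgroup.subgroupOfEquivOfLe hVC).toEquiv, hc]
  have hle : π.ker ≤ V.subgroupOf (Cu y) := by
    rw [hker]
    exact Subgroup.comap_mono hzV
  have h3 := Subgroup.relIndex_mul_relIndex (⊥ : Subgroup (Cu y)) π.ker (V.subgroupOf (Cu y))
    bot_le hle
  rw [Subgroup.relIndex_bot_left, Subgroup.relIndex_bot_left, Subgroup.relIndex_ker, h1, h2] at h3
  have h4 : ℓ ^ 2 * Nat.card ((V.subgroupOf (Cu y)).map π) = ℓ ^ 2 * ℓ ^ 2 := by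
    rw [h3]
    ring
  exact Nat.eq_of_mul_eq_mul_left (by positivity) h4

theorem avl (hCsm : CsmStmt) (hCrg : CrgStmt) (hAvb : T8.AvbStmt) : AvlStmt := by
  classical
  intro ℓ _ M _ hM G H _ _ _ _ N e V γ b d c ε y w β π m K g θ hS χ hχ j hj
  have hp : ℓ.Prime := Fact.out
  have hF : GoodF ℓ (FF M) := H50.fld ℓ Fact.out M hM
  have hL := hS.dat.ld
  have hV : IsPGroup ℓ V := hL.tp.1
  have hab := hL.ab
  have hcs := hS.cs
  obtain ⟨f, hf⟩ := hS.coh χ hχ.1.1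
  have hfN := hf.inv hχ.2
  obtain ⟨hR, -, -⟩ := hCrg ℓ (FF M) hF hS.odd G e V γ hL y w m hcs
  obtain ⟨-, hsm⟩ := hCsm ℓ (FF M) hF hS.odd G N hS.gs e V γ hL y w m hcs f hfN j hj
  have hyj : y ^ j ∈ V := V.pow_mem hcs.yV j
  have hB := hAvb ℓ M hM G N hS.gs V hV hab f hf.rv hfN 1 (Uw (ℓ ^ 1) V) rfl (y ^ j) hyj
  obtain ⟨A, hA⟩ : ∃ A : ℂ, A = (Nat.card (Uw (ℓ ^ 1) V) : ℂ)⁻¹ *
    ∑ᶠ v : Uw (ℓ ^ 1) V, f (y ^ j * v) := ⟨_, rfl⟩
  have hAR : A ∈ RM M := by rw [hA]; exact hB.1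
  have hℓ0 : (ℓ : ℂ) ≠ 0 := by exact_mod_cast hp.ne_zero
  -- the average
  have hvk : ∀ k ∈ Finset.Ico 1 ℓ, f (y ^ j * w ^ (ℓ * k)) = vk M ℓ b d ε y w j k χ := by
    intro k hk
    rw [Finset.mem_Ico] at hk
    have hk' : ¬ ℓ ∣ k := fun h => absurd (Nat.le_of_dvd (by omega) h) (by omega)
    rw [hf.reg _ (hR j k hj hk')]
    rfl
  have hA2 : A = (ℓ : ℂ)⁻¹ * (f (y ^ j) + ∑ k ∈ Finset.Ico 1 ℓ, vk M ℓ b d ε y w j k χ) := by
    rw [hA, hsm, Finset.range_eq_Ico, Finset.sum_eq_sum_Ico_succ_bot hp.pos, mul_zero, pow_zero,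
      mul_one, Finset.sum_congr rfl hvk]
  -- the difference
  obtain ⟨r, hr⟩ : ∃ r : ℂ, r = (f (y ^ j) - θ * bq ℓ π g (y ^ j) χ) / ((m * K + 1 : ℕ) : ℂ) :=
    ⟨_, rfl⟩
  have hrR : r ∈ RM M := by rw [hr]; exact hf.y j hj
  have hmK : ((m * K + 1 : ℕ) : ℂ) = (ℓ : ℂ) ^ 2 := by
    rw [hS.sy.cd.mul, card_im hp.pos hab hcs.yV hcs.card hS.sy.qn]
    push_cast
    ring
  have hdiff : A - aa M ℓ b d ε y w π g θ j χ = ℓ * r := by
    rw [hr, hmK, hA2]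
    unfold aa
    field_simp
    ring
  have hℓR : (ℓ : ℂ) ∈ RM M := by
    have h1 := (rr_int (M := M) (ℓ : ℤ)).1
    simpa using h1
  refine ⟨?_, fun hno h0 => ?_⟩
  · have h1 : aa M ℓ b d ε y w π g θ j χ = A - ℓ * r := by rw [← hdiff]; ring
    rw [h1]
    exact sub_mem hAR ((RM M).mul_mem hℓR hrR)
  · -- the point `u`
    have h1ℓ : ¬ ℓ ∣ 1 := fun h => hp.one_lt.ne' (Nat.dvd_one.1 h)
    have hu := hR j 1 hj h1ℓ
    rw [mul_one] at hu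
    have hAd : A / ℓ ∈ RM M := by
      have h1 : A / ℓ = aa M ℓ b d ε y w π g θ j χ / ℓ + r := by
        have h2 : A = aa M ℓ b d ε y w π g θ j χ + ℓ * r := by rw [← hdiff]; ring
        rw [h2]
        field_simp
      rw [h1]
      exact add_mem h0 hrR
    have hwU : w ^ ℓ ∈ Uw (ℓ ^ 1) V := by
      rw [pow_one]
      exact Subgroup.subset_closure ⟨w, hcs.wV, rfl⟩
    have hBu := (hAvb ℓ M hM G N hS.gs V hV hab f hf.rv hfN 1 (Uw (ℓ ^ 1) V) rfl (y ^ j * w ^ ℓ)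
      hu.1).2
    have hsame : ∑ᶠ v : Uw (ℓ ^ 1) V, f (y ^ j * w ^ ℓ * v) =
        ∑ᶠ v : Uw (ℓ ^ 1) V, f (y ^ j * v) := by
      rw [← finsum_comp_equiv (Equiv.mulLeft (⟨w ^ ℓ, hwU⟩ : Uw (ℓ ^ 1) V))
        (f := fun v : Uw (ℓ ^ 1) V => f (y ^ j * v))]
      refine finsum_congr fun v => ?_
      show f (y ^ j * w ^ ℓ * v) = f (y ^ j * (w ^ ℓ * v))
      rw [mul_assoc]
    rw [hsame, ← hA] at hBu
    have h3 : f (y ^ j * w ^ ℓ) / ℓ ∈ RM M := by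
      have h4 : f (y ^ j * w ^ ℓ) / ℓ = (f (y ^ j * w ^ ℓ) - A) / (ℓ : ℂ) ^ 1 + A / ℓ := by
        rw [pow_one]
        ring
      rw [h4]
      exact add_mem hBu hAd
    rw [hf.reg _ hu] at h3
    apply hno _ hu
    rcases hS.dat.sg _ hu with h | h
    · rw [h] at h3
      simpa using h3
    · rw [h] at h3
      have h4 := neg_mem h3
      have e2 : -(((-1 : ℤ) : ℂ) * vv M b d (y ^ j * w ^ ℓ) χ / (ℓ : ℂ)) =
          vv M b d (y ^ j * w ^ ℓ) χ / (ℓ : ℂ) := by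
        push_cast
        ring
      rwa [e2] at h4

end Pool.Agent.PP.T12.H17
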